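import Pool.Agent.Y160.FT.Stmts

/-!
# Towers of Kummer extensions: statements about the rank and the existence
-/

set_option autoImplicit false
set_option linter.all false

open Polynomial IsDedekindDomain WithZero

namespace Pool.Agent.Y160.FT

/-- Linear independence from independence modulo `1 - σ`. -/
def StLin : Prop := ∀ (p s q : ℕ) (M : Type) [AddCommGroup M] (σ : AddMonoid.End M) (r : ℕ)
  (D : Fin r → M), p.Prime → q = p ^ (s + 1) →
  (∀ x : M, ∑ i ∈ Finset.range q, (σ ^ i) x = 0) →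
  (∀ x : M, x - σ x = 0 → x = 0) →
  (∀ (a : Fin r → ℤ) (y : M), ∑ j, a j • D j = y - σ y → ∀ j, (q : ℤ) ∣ a j) →
  LinearIndependent ℤ (fun i : Fin r × Fin (q - 1) => (σ ^ (i.2 : ℕ)) (D i.1))

/-- The divisors of the powers of `g` are independent modulo `q`-th powers. -/
def StInd : Prop := ∀ (ℓ q s : ℕ) (k : Type) [Field k] (ζ : k) (g : k[X]) (l : List (k[X] × k)),
  ℓ.Prime → q = ℓ ^ (s + 1) → IsPrimitiveRoot ζ q → Cond ℓ q g l →
  ∀ (R L : Type) [CommRing R] [IsDomain R] [Algebra k R] [Field L] [Algebra R L]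
    [IsFractionRing R L] (x u : R), Pres x u (FF ℓ q g l) →
    ∀ (c : k) (A : k[X]) (w : L), c ≠ 0 → VV g A →
      algebraMap R L (algebraMap k R c * aeval x A) = w ^ q →
      ∃ (c' : k) (j : ℕ) (B : k[X]), c' ≠ 0 ∧ A = C c' * g ^ j * B ^ q

/-- Conditions at primes which imply `Cond`. -/
def StEx1 : Prop := ∀ (ℓ q s m : ℕ) (O k : Type) [CommRing O] [IsDedekindDomain O] [Field k]
  [Algebra O k] [IsFractionRing O k] (ρ : Fin m → O) (Q : HeightOneSpectrum O)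
  (P : Fin m → Fin m → HeightOneSpectrum O) (l : List (O × O)),
  ℓ.Prime → q = ℓ ^ (s + 1) → ℓ.Coprime m → 3 ≤ m →
  (∀ j, Q.intValuation (ρ j) ≤ exp (-(q : ℤ))) →
  (∀ i j, i ≠ j → (P i j).intValuation (ρ i - ρ j) = exp (-1 : ℤ)) →
  (∀ i j a b, i ≠ j → a ≠ b → ¬ (a = i ∧ b = j) → ¬ (a = j ∧ b = i) →
    (P i j).intValuation (ρ a - ρ b) = 1) →
  (∀ x ∈ l, x.2 ≠ 0) →
  (∀ b a l', l = (b, a) :: l' → Q.intValuation b = exp (-1 : ℤ) ∧
    (∀ i j, i ≠ j → (P i j).intValuation b ≤ exp (-2 : ℤ)) ∧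
    ∀ x ∈ l', Q.intValuation x.1 ≤ exp (-2 : ℤ) ∧
      ∀ i j, i ≠ j → (P i j).intValuation x.1 ≤ exp (-2 : ℤ)) →
  Cond ℓ q (∏ j, (X - C (algebraMap O k (ρ j))))
    (l.map fun x => (C (algebraMap O k x.1), algebraMap O k x.2))

/-- Existence. -/
def StEx2 : Prop := ∀ (q m : ℕ) (O : Type) [CommRing O] [IsDedekindDomain O],
  (∀ N : ℕ, {v : HeightOneSpectrum O | ∃ f : Fin N → O, ∀ i j, i ≠ j →
    f i - f j ∉ v.asIdeal}.Infinite) →
  ∃ (ρ : Fin m → O) (Q : HeightOneSpectrum O) (P : Fin m → Fin m → HeightOneSpectrum O) (b : O),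
    (∀ j, Q.intValuation (ρ j) ≤ exp (-(q : ℤ))) ∧
    (∀ i j, i ≠ j → (P i j).intValuation (ρ i - ρ j) = exp (-1 : ℤ)) ∧
    (∀ i j a b, i ≠ j → a ≠ b → ¬ (a = i ∧ b = j) → ¬ (a = j ∧ b = i) →
      (P i j).intValuation (ρ a - ρ b) = 1) ∧
    Q.intValuation b = exp (-1 : ℤ) ∧
    (∀ i j, i ≠ j → (P i j).intValuation b ≤ exp (-2 : ℤ))

end Pool.Agent.Y160.FT
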