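import Pool.Agent.Y160.FT.Stmts
import Pool.Agent.Y160.SQ.Crit

/-!
# The Tate conjecture for the surfaces `w ^ q = g(x) + h(x, t) ^ q`
-/

set_option autoImplicit false
set_option linter.all false

open Polynomial IsDedekindDomain WithZero
open scoped Classical

namespace Pool.Agent.Y160.FT

open Pool.Agent.Y160.SE (IsPw SmoothC)
open Pool.Agent.TH115.GD (IsTower)
open Pool.Agent.Y160.SQ (TateAt)

section ee

variable {k S S' : Type} [CommRing k] [CommRing S] [CommRing S'] (ℓ : ℕ)

theorem EE_map (φ : k[X] →+* S) (ψ : S →+* S') (l : List (k[X] × k)) (T : S) :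
    ψ (EE ℓ φ l T) = EE ℓ (ψ.comp φ) l (ψ T) := by
  induction l with
  | nil => rfl
  | cons x l ih =>
    obtain ⟨b, a⟩ := x
    show ψ (φ b + φ (C a) * (EE ℓ φ l T) ^ ℓ) = _
    rw [map_add, map_mul, map_pow, ih]
    rfl

/-- The degree in `t`. -/
theorem EE_deg {k : Type} [Field k] {ℓ : ℕ} (hℓ : ℓ ≠ 0) (l : List (k[X] × k))
    (hl : ∀ x ∈ l, x.2 ≠ 0) :
    (EE ℓ (C.comp (evalRingHom (0 : k))) l (X : k[X])).natDegree = ℓ ^ l.length := by
  induction l with
  | nil => exact natDegree_X
  | cons y l ih =>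
    obtain ⟨b, a⟩ := y
    have h1 := ih fun x hx => hl x (List.mem_cons_of_mem _ hx)
    have ha : a ≠ 0 := hl (b, a) List.mem_cons_self
    have e : EE ℓ (C.comp (evalRingHom (0 : k))) ((b, a) :: l) (X : k[X]) =
        C (b.eval 0) + C a * (EE ℓ (C.comp (evalRingHom (0 : k))) l (X : k[X])) ^ ℓ := by
      show C (b.eval 0) + C ((C a).eval 0) * _ = _
      rw [eval_C]
    rw [e, natDegree_C_add, natDegree_C_mul ha, natDegree_pow, h1, List.length_cons, pow_succ,
      mul_comm]

theorem EE_ne {k : Type} [Field k] {ℓ : ℕ} (hℓ : ℓ ≠ 0) (l : List (k[X] × k))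
    (hl : ∀ x ∈ l, x.2 ≠ 0) : (EE ℓ (mapRingHom C) l (C X) : k[X][X]) ≠ 0 := by
  intro h
  have h1 := EE_map ℓ (mapRingHom C : k[X] →+* k[X][X]) (evalRingHom (0 : k[X])) l (C X)
  rw [h, map_zero] at h1
  have h2 : (evalRingHom (0 : k[X])).comp (mapRingHom C) = C.comp (evalRingHom (0 : k)) := by
    apply Polynomial.ringHom_ext
    · intro a
      show eval 0 (map C (C a)) = C (eval 0 (C a))
      rw [map_C, eval_C, eval_C]
    · show eval 0 (map C X) = C (eval 0 X)
      rw [map_X, eval_X, eval_X, C_0]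
  have h3 : (evalRingHom (0 : k[X])) (C X) = (X : k[X]) := eval_C
  rw [h2, h3] at h1
  have h4 := EE_deg hℓ l hl
  rw [← h1, natDegree_zero] at h4
  exact pow_ne_zero _ hℓ h4.symm

end ee

section swap

variable {k : Type} [Field k]

theorem swap_FF (ℓ q : ℕ) (g : k[X]) (l : List (k[X] × k)) :
    Bivariate.swap (FF ℓ q g l) = ff ℓ q g l := by
  unfold FF ff
  rw [map_add, map_pow, Bivariate.swap_C]
  congr 2
  have h := EE_map ℓ (C : k[X] →+* k[X][X]) (Bivariate.swap (R := k) : k[X][X] →+* k[X][X]) l X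
  have h1 : (Bivariate.swap (R := k) : k[X][X] →+* k[X][X]).comp (C : k[X] →+* k[X][X]) =
      mapRingHom C := by
    apply RingHom.ext
    intro p
    exact Bivariate.swap_C p
  rw [h1] at h
  exact h.trans (congrArg _ Bivariate.swap_Y)

theorem eval_swap {R : Type} [CommRing R] [Algebra k R] (x u : R) (P : k[X][X]) :
    eval₂ ((aeval u : k[X] →ₐ[k] R) : k[X] →+* R) x P =
      eval₂ ((aeval x : k[X] →ₐ[k] R) : k[X] →+* R) u (Bivariate.swap P) := by
  have key : eval₂RingHom ((aeval u : k[X] →ₐ[k] R) : k[X] →+* R) x =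
      (eval₂RingHom ((aeval x : k[X] →ₐ[k] R) : k[X] →+* R) u).comp
        (Bivariate.swap (R := k) : k[X][X] →+* k[X][X]) := by
    apply Polynomial.ringHom_ext'
    · apply Polynomial.ringHom_ext
      · intro a
        show eval₂ _ _ (C (C a)) = eval₂ _ _ (Bivariate.swap (C (C a)))
        rw [Bivariate.swap_C_C, eval₂_C, eval₂_C]
        show aeval u (C a) = aeval x (C a)
        rw [aeval_C, aeval_C]
      · show eval₂ _ _ (C X) = eval₂ _ _ (Bivariate.swap (C X))
        rw [Bivariate.swap_X, eval₂_C, eval₂_X]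
        show aeval u X = u
        rw [aeval_X]
    · show eval₂ _ _ X = eval₂ _ _ (Bivariate.swap X)
      rw [Bivariate.swap_Y, eval₂_C, eval₂_X]
      show x = aeval x X
      rw [aeval_X]
  exact congrArg (fun g : k[X][X] →+* R => g P) key

end swap

section pres

variable {k R : Type} [Field k] [CommRing R] [Algebra k R] {x u : R} {ℓ q : ℕ} {g : k[X]}
  {l : List (k[X] × k)}

/-- The elements of `R` as polynomials in `x` over `k[u]`. -/
theorem pres_swap (hP : Pres x u (FF ℓ q g l)) :
    (∀ z : R, ∃ p : k[X][X], eval₂ ((aeval u : k[X] →ₐ[k] R) : k[X] →+* R) x p = z) ∧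
    ∀ p : k[X][X], eval₂ ((aeval u : k[X] →ₐ[k] R) : k[X] →+* R) x p = 0 ↔ ff ℓ q g l ∣ p := by
  constructor
  · intro z
    obtain ⟨p, hp⟩ := hP.surj z
    exact ⟨Bivariate.swap p, by rw [eval_swap, Bivariate.swap_swap_apply, hp]⟩
  · intro p
    rw [eval_swap, hP.ker, ← swap_FF]
    constructor
    · rintro ⟨r, hr⟩
      refine ⟨Bivariate.swap r, ?_⟩
      rw [← map_mul, ← hr, Bivariate.swap_swap_apply]
    · rintro ⟨r, hr⟩
      refine ⟨Bivariate.swap r, ?_⟩
      rw [hr, map_mul, Bivariate.swap_swap_apply]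

/-- `g(x) = - H ^ q` on the curve. -/
theorem g_eq (hP : Pres x u (FF ℓ q g l)) : ∃ H : R, aeval x g = -H ^ q := by
  refine ⟨eval₂ ((aeval x : k[X] →ₐ[k] R) : k[X] →+* R) u (EE ℓ C l X), ?_⟩
  have h := (hP.ker (FF ℓ q g l)).2 dvd_rfl
  unfold FF at h
  rw [eval₂_add, eval₂_pow, eval₂_C] at h
  exact eq_neg_of_add_eq_zero_left h

end pres

section pw

theorem pw_inj {γ δ : WithZero (Multiplicative ℤ)} {n : ℕ} (hn : n ≠ 0) (h : γ ^ n = δ ^ n) :
    γ = δ := (pow_left_inj₀ zero_le zero_le hn).1 h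

end pw

section val

variable {k R L : Type} [Field k] [CommRing R] [IsDedekindDomain R] [Algebra k R] [Field L]
  [Algebra R L] [IsFractionRing R L] {x H : R} {q : ℕ} {g : k[X]}

theorem val_const (P : HeightOneSpectrum R) {c : k} (hc : c ≠ 0) :
    P.valuation L (algebraMap R L (algebraMap k R c)) = 1 := by
  have hle : ∀ y : R, P.valuation L (algebraMap R L y) ≤ 1 := fun y => P.valuation_le_one _
  apply le_antisymm (hle _)
  have h1 : P.valuation L (algebraMap R L (algebraMap k R c)) *
      P.valuation L (algebraMap R L (algebraMap k R c⁻¹)) = 1 := by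
    rw [← map_mul, ← map_mul, ← map_mul, mul_inv_cancel₀ hc, map_one, map_one, map_one]
  by_contra h
  have h := not_le.1 h
  have h3 : P.valuation L (algebraMap R L (algebraMap k R c)) *
      P.valuation L (algebraMap R L (algebraMap k R c⁻¹)) ≤
      P.valuation L (algebraMap R L (algebraMap k R c)) := mul_le_of_le_one_right' (hle _)
  rw [h1] at h3
  exact absurd h (not_lt.2 h3)

/-- The values of the divisors of the powers of `g` are `q`-th powers. -/
theorem val_VV (hg : Squarefree g) (hH : aeval x g = -H ^ q) (hg0 : aeval x g ≠ 0)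
    (P : HeightOneSpectrum R) : ∀ (N : ℕ) (A : k[X]), A ∣ g ^ N →
      IsPw q (P.valuation L (algebraMap R L (aeval x A))) := by
  have hgv : P.valuation L (algebraMap R L (aeval x g)) =
      (P.valuation L (algebraMap R L H)) ^ q := by
    rw [hH, map_neg, Valuation.map_neg, map_pow, map_pow]
  have hle : ∀ A : k[X], P.valuation L (algebraMap R L (aeval x A)) ≤ 1 :=
    fun A => P.valuation_le_one _
  have hcon : ∀ c : k, c ≠ 0 → P.valuation L (algebraMap R L (aeval x (C c))) = 1 := by
    intro c hc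
    apply le_antisymm (hle _)
    have h1 : P.valuation L (algebraMap R L (aeval x (C c))) *
        P.valuation L (algebraMap R L (aeval x (C c⁻¹))) = 1 := by
      rw [← map_mul, ← map_mul, ← map_mul, ← C_mul, mul_inv_cancel₀ hc, C_1, map_one, map_one,
        map_one]
    by_contra h
    have h := not_le.1 h
    have h3 : P.valuation L (algebraMap R L (aeval x (C c))) *
        P.valuation L (algebraMap R L (aeval x (C c⁻¹))) ≤
        P.valuation L (algebraMap R L (aeval x (C c))) := mul_le_of_le_one_right' (hle _)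
    rw [h1] at h3
    exact absurd h (not_lt.2 h3)
  -- an irreducible factor
  have hirr : ∀ p : k[X], Irreducible p → p ∣ g →
      IsPw q (P.valuation L (algebraMap R L (aeval x p))) := by
    rintro p hp ⟨g', rfl⟩
    have hcop : IsCoprime p g' := by
      rw [hp.coprime_iff_not_dvd]
      rintro ⟨r, rfl⟩
      have := hg p ⟨r, by ring⟩
      exact hp.not_isUnit this
    obtain ⟨a, b, hab⟩ := hcop
    by_cases h1 : P.valuation L (algebraMap R L (aeval x g')) = 1
    · refine ⟨P.valuation L (algebraMap R L H), ?_⟩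
      rw [← hgv, map_mul, map_mul, map_mul, h1, mul_one]
    · have hlt : P.valuation L (algebraMap R L (aeval x g')) < 1 := lt_of_le_of_ne (hle _) h1
      have h3 : P.valuation L (algebraMap R L (aeval x p)) = 1 := by
        by_contra h4
        have hlt' := lt_of_le_of_ne (hle p) h4
        have e : (1 : L) = algebraMap R L (aeval x a) * algebraMap R L (aeval x p) +
            algebraMap R L (aeval x b) * algebraMap R L (aeval x g') := by
          rw [← map_mul, ← map_mul, ← map_mul, ← map_mul, ← map_add, ← map_add, hab, map_one,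
            map_one]
        have h5 : P.valuation L (1 : L) < 1 := by
          rw [e]
          refine Valuation.map_add_lt _ ?_ ?_
          · rw [map_mul]
            exact lt_of_le_of_lt (mul_le_of_le_one_left' (hle _)) hlt'
          · rw [map_mul]
            exact lt_of_le_of_lt (mul_le_of_le_one_left' (hle _)) hlt
        rw [map_one] at h5
        exact lt_irrefl _ h5
      exact ⟨1, by rw [h3, one_pow]⟩
  intro N A hA
  have hg00 : g ≠ 0 := by rintro rfl; exact hg0 (map_zero _)
  have hA0 : A ≠ 0 := by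
    rintro rfl
    exact pow_ne_zero N hg00 (zero_dvd_iff.1 hA)
  induction A using UniqueFactorizationMonoid.induction_on_prime with
  | h₁ => exact absurd rfl hA0
  | h₂ A hu =>
    obtain ⟨c, hc, rfl⟩ := Polynomial.isUnit_iff.1 hu
    rw [hcon c hc.ne_zero]
    exact ⟨1, (one_pow _).symm⟩
  | h₃ A p hA1 hp ih =>
    rw [map_mul, map_mul, map_mul]
    refine (hirr p hp.irreducible ?_).mul (ih (dvd_trans (dvd_mul_left A p) hA) hA1)
    exact hp.dvd_of_dvd_pow (dvd_trans (dvd_mul_right p A) hA)

/-- From `ℓ`-th powers to `q`-th powers. -/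
theorem sel_q [Algebra k L] (hkL : ∀ c : k, algebraMap k L c = algebraMap R L (algebraMap k R c))
    {ℓ s : ℕ} (hℓ : ℓ ≠ 0) (hq : q = ℓ ^ (s + 1)) (hg : Squarefree g)
    (hH : aeval x g = -H ^ q) (hg0 : aeval x g ≠ 0)
    (hsel : ∀ z : L, z ≠ 0 → (∀ P : HeightOneSpectrum R, IsPw ℓ (P.valuation L z)) →
      ∃ (c : k) (A : k[X]) (w : L), c ≠ 0 ∧ VV g A ∧ w ≠ 0 ∧
        z = algebraMap k L c * algebraMap R L (aeval x A) * w ^ ℓ) :
    ∀ j ≤ s + 1, ∀ z : L, z ≠ 0 → (∀ P : HeightOneSpectrum R, IsPw (ℓ ^ j) (P.valuation L z)) →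
      ∃ (c : k) (A : k[X]) (w : L), c ≠ 0 ∧ VV g A ∧ w ≠ 0 ∧
        z = algebraMap k L c * algebraMap R L (aeval x A) * w ^ (ℓ ^ j) := by
  intro j
  induction j with
  | zero =>
    intro _ z hz _
    exact ⟨1, 1, z, one_ne_zero, ⟨0, one_dvd _⟩, hz, by
      rw [map_one, map_one, map_one, one_mul, one_mul, pow_zero, pow_one]⟩
  | succ j ih =>
    intro hj z hz hP
    obtain ⟨c, A, w, hc, ⟨N, hA⟩, hw, e⟩ := hsel z hz (fun P => by
      obtain ⟨δ, hδ⟩ := hP P
      exact ⟨δ ^ ℓ ^ j, by rw [hδ, ← pow_mul, ← pow_succ]⟩)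
    have hA0 : algebraMap R L (aeval x A) ≠ 0 := by
      intro h0
      apply hz
      rw [e, h0, mul_zero, zero_mul]
    have hcL : algebraMap k L c ≠ 0 := (_root_.map_ne_zero _).2 hc
    have hw' : ∀ P : HeightOneSpectrum R, IsPw (ℓ ^ j) (P.valuation L w) := by
      intro P
      obtain ⟨δ, hδ⟩ := hP P
      obtain ⟨ε, hε⟩ := val_VV (L := L) hg hH hg0 P N A hA
      have hcv : ∃ η, P.valuation L (algebraMap k L c) = η ^ q :=
        ⟨1, by rw [hkL, val_const P hc, one_pow]⟩
      obtain ⟨η, hη⟩ := hcv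
      have hε0 : ε ≠ 0 := by
        rintro rfl
        rw [zero_pow (by rw [hq]; exact pow_ne_zero _ hℓ), map_eq_zero] at hε
        exact hA0 hε
      have hη0 : η ≠ 0 := by
        rintro rfl
        rw [zero_pow (by rw [hq]; exact pow_ne_zero _ hℓ), map_eq_zero] at hη
        exact hcL hη
      obtain ⟨r, hr⟩ : ∃ r, s + 1 = j + 1 + r := ⟨s + 1 - (j + 1), by omega⟩
      refine ⟨δ / (ε ^ (ℓ ^ r) * η ^ (ℓ ^ r)), ?_⟩
      apply pw_inj hℓ
      have h1 : P.valuation L z = η ^ q * ε ^ q * P.valuation L w ^ ℓ := by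
        rw [e, map_mul, map_mul, map_pow, hη, hε]
      rw [hδ] at h1
      have hqr : q = ℓ ^ (j + 1) * ℓ ^ r := by rw [hq, hr, pow_add]
      have h2 : (ε ^ (ℓ ^ r) * η ^ (ℓ ^ r)) ^ (ℓ ^ (j + 1)) = η ^ q * ε ^ q := by
        rw [mul_pow, ← pow_mul, ← pow_mul, mul_comm (ℓ ^ r), ← hqr, mul_comm]
      rw [← pow_mul, ← pow_succ, div_pow, h2, h1]
      rw [mul_div_cancel_left₀]
      exact mul_ne_zero (pow_ne_zero _ hη0) (pow_ne_zero _ hε0)
    obtain ⟨c', A', w', hc', ⟨N', hA'⟩, hw'0, e'⟩ := ih (by omega) w hw hw'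
    refine ⟨c * c' ^ ℓ, A * A' ^ ℓ, w', mul_ne_zero hc (pow_ne_zero _ hc'), ⟨N + N' * ℓ, ?_⟩, hw'0,
      ?_⟩
    · rw [pow_add, pow_mul]
      exact mul_dvd_mul hA (pow_dvd_pow_of_dvd hA' ℓ)
    · conv_lhs => rw [e, e']
      rw [map_mul, map_pow, map_mul, map_pow, map_mul, map_pow, mul_pow, mul_pow, ← pow_mul,
        ← pow_succ]
      ring

end val

section fam

variable {k k' K F : Type} [Field k] [Field k'] [Algebra k k'] [Field K] [Algebra k[X] K]
  [Field F] [Algebra k'[X] F] [IsFractionRing k'[X] F] [Algebra K F]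

/-- **The family**: the Tate conjecture at `p` for `w ^ q = g(x) + h(x, t) ^ q`. -/
theorem famTate (hTower : StTower) (hFam : StFam) (H : SQ.Hyps) (HL : SQ.LHyps)
    (hT : IsTower k k' K F) {p q s : ℕ} (hp : p.Prime) (hq : q = p ^ (s + 1)) {ζ : k}
    (hζ : IsPrimitiveRoot ζ q) {g : k[X]} {l : List (k[X] × k)} (hC : Cond p q g l) :
    TateAt (F := F) p q k' ((ff p q g l).map (algebraMap k[X] K)) := by
  haveI := hT.fracK
  have hq0 : q ≠ 0 := by rw [hq]; exact pow_ne_zero _ hp.ne_zero
  haveI : NeZero q := ⟨hq0⟩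
  have hpk : (p : k) ≠ 0 := by
    intro h0
    have h1 := hζ.neZero'
    apply h1.out
    rw [hq, Nat.cast_pow, h0, zero_pow (Nat.succ_ne_zero s)]
  obtain ⟨hmon, hdeg, hsm, hK, hF⟩ := hFam p q s k g l hp hq hpk hC
  obtain ⟨hirrK, hsepK⟩ := hK K
  obtain ⟨R, _, _, _, x, u, hP, hsel⟩ := hTower p q s k ζ g l hp hq hζ hC
  obtain ⟨hsurj, hker⟩ := pres_swap hP
  have hn : (ff p q g l).natDegree ≠ 0 := by
    rw [hdeg]
    intro h0
    have := hC.cop
    rw [h0, Nat.coprime_zero_right] at this
    exact hp.one_lt.ne' this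
  -- the algebra structures
  let φ : k[X] →+* R := ((aeval u : k[X] →ₐ[k] R) : k[X] →+* R)
  letI : Algebra k[X] R := φ.toAlgebra
  haveI : IsDomain R := inferInstance
  have hinjR : Function.Injective (algebraMap k[X] R) := by
    rw [injective_iff_map_eq_zero]
    intro y hy
    have h1 : eval₂ φ x (C y) = 0 := by rw [eval₂_C]; exact hy
    have h2 := (hker _).1 h1
    by_contra hy0
    have h3 := natDegree_le_of_dvd h2 (C_ne_zero.2 hy0)
    rw [natDegree_C] at h3
    exact hn (Nat.le_zero.1 h3)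
  have hkX : ∀ y : k[X], algebraMap k[X] (FractionRing R) y = algebraMap R (FractionRing R) (φ y) :=
    fun y => IsScalarTower.algebraMap_apply k[X] R (FractionRing R) y
  have hinjN : Function.Injective (algebraMap k[X] (FractionRing R)) := by
    intro y y' h
    rw [hkX, hkX] at h
    exact hinjR (IsFractionRing.injective R (FractionRing R) h)
  have hkN : ∀ c : k, algebraMap k (FractionRing R) c =
      algebraMap R (FractionRing R) (algebraMap k R c) := fun c =>
    IsScalarTower.algebraMap_apply k R (FractionRing R) c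
  letI : Algebra K (FractionRing R) := (IsFractionRing.lift hinjN : K →+* FractionRing R).toAlgebra
  haveI : IsScalarTower k[X] K (FractionRing R) := IsScalarTower.of_algebraMap_eq fun y =>
    (IsFractionRing.lift_algebraMap hinjN y).symm
  have hroot : eval₂ φ x (ff p q g l) = 0 := (hker _).2 dvd_rfl
  haveI : Algebra.IsIntegral k[X] R := by
    refine ⟨fun z => ?_⟩
    obtain ⟨P, rfl⟩ := hsurj z
    have hx : IsIntegral k[X] x := ⟨ff p q g l, hmon, hroot⟩
    have : eval₂ φ x P = aeval x P := rfl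
    rw [this]
    exact adjoin_le_integralClosure hx (aeval_mem_adjoin_singleton k[X] x)
  let θ : FractionRing R := algebraMap R (FractionRing R) x
  have hθev : ∀ P : k[X][X], aeval θ (P.map (algebraMap k[X] K)) =
      algebraMap R (FractionRing R) (eval₂ φ x P) := by
    intro P
    rw [aeval_map_algebraMap]
    have h1 : algebraMap k[X] (FractionRing R) = (algebraMap R (FractionRing R)).comp φ :=
      RingHom.ext hkX
    rw [aeval_def, h1]
    exact (hom_eval₂ P φ (algebraMap R (FractionRing R)) x).symm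
  have hθ : aeval θ ((ff p q g l).map (algebraMap k[X] K)) = 0 := by
    rw [hθev, hroot, map_zero]
  have htop : IntermediateField.adjoin K {θ} = ⊤ := by
    rw [eq_top_iff]
    rintro z -
    have hR : ∀ r : R, algebraMap R (FractionRing R) r ∈ IntermediateField.adjoin K {θ} := by
      intro r
      obtain ⟨P, rfl⟩ := hsurj r
      rw [← hθev]
      exact IntermediateField.algebra_adjoin_le_adjoin K {θ}
        (aeval_mem_adjoin_singleton K θ)
    obtain ⟨a, b, hb, rfl⟩ := IsFractionRing.div_surjective (A := R) z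
    exact div_mem (hR a) (hR b)
  have hirrF : Irreducible (((ff p q g l).map (algebraMap k[X] K)).map (algebraMap K F)) := by
    have h1 := hF k' F
    have e : ((ff p q g l).map (algebraMap k[X] K)).map (algebraMap K F) =
        ((ff p q g l).map (mapRingHom (algebraMap k k'))).map (algebraMap k'[X] F) := by
      rw [Polynomial.map_map, Polynomial.map_map]
      congr 1
      apply RingHom.ext
      intro y
      exact hT.map y
    rw [e]
    exact h1
  -- the function `H`
  obtain ⟨H0, hH0⟩ := g_eq hP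
  have hgx : aeval x g ≠ 0 := by
    intro h0
    have h1 : eval₂ φ x (g.map C) = 0 := by
      rw [eval₂_map]
      have : φ.comp C = algebraMap k R := by
        apply RingHom.ext
        intro c
        show aeval u (C c) = _
        rw [aeval_C]
      rw [this]
      exact h0
    have h2 := (hker _).1 h1
    have h3 : (g.map C : k[X][X]).natDegree = (ff p q g l).natDegree := by
      rw [hdeg, hC.monic.natDegree_map]
    have h4 := eq_of_monic_of_dvd_of_natDegree_le hmon (hC.monic.map C) h2 h3.le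
    have h5 : (EE p (mapRingHom C) l (C X) : k[X][X]) ^ q = 0 := by
      have h6 : g.map C + (EE p (mapRingHom C) l (C X) : k[X][X]) ^ q = g.map C := h4.symm
      exact add_eq_left.1 h6
    have h7 := pow_eq_zero_iff hq0 |>.1 h5
    refine EE_ne hp.ne_zero l ?_ h7
    intro y hy
    obtain ⟨l1, l2, hl⟩ := List.append_of_mem hy
    exact hC.ne l1 y.1 y.2 l2 hl
  have hgsq : Squarefree g := hC.sep.squarefree
  refine SQ.mainC (R := R) (N := FractionRing R) hp (Nat.succ_pos s) hq H HL hT hζ hmon ?_ hsepK hsm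
    hirrF hθ htop ?_
  · rw [hdeg]; exact hC.cop
  intro z hz hv
  obtain ⟨c, A, w, hc, ⟨M, hA⟩, hw, e⟩ := sel_q (L := FractionRing R) hkN hp.ne_zero hq hgsq hH0 hgx
    (hsel (FractionRing R) hkN) (s + 1) le_rfl z hz (by rw [← hq]; exact hv)
  rw [← hq] at e
  have hA0 : A ≠ 0 := by
    rintro rfl
    apply hz
    rw [e, map_zero, map_zero, mul_zero, zero_mul]
  -- the factors of `A`
  let T : Multiset k[X] := UniqueFactorizationMonoid.normalizedFactors A
  have hTA : ∃ c1 : k, c1 ≠ 0 ∧ A = C c1 * T.prod := by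
    obtain ⟨v, hv⟩ := UniqueFactorizationMonoid.prod_normalizedFactors hA0
    obtain ⟨c1, hc1, h1⟩ := Polynomial.isUnit_iff.1 v.isUnit
    exact ⟨c1, hc1.ne_zero, by rw [← hv, h1, mul_comm]⟩
  obtain ⟨c1, hc1, hAT⟩ := hTA
  let ψ : k[X] →+* K[X] := mapRingHom ((algebraMap k[X] K).comp C)
  refine ⟨c * c1, w, T.map ψ, mul_ne_zero hc hc1, hw, ?_, ?_⟩
  · intro b hb
    obtain ⟨r, hr, rfl⟩ := Multiset.mem_map.1 hb
    have h1 := UniqueFactorizationMonoid.irreducible_of_normalized_factor r hr
    have h2 := UniqueFactorizationMonoid.dvd_of_mem_normalizedFactors hr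
    have h3 := UniqueFactorizationMonoid.normalize_normalized_factor r hr
    have hrm : r.Monic := by
      have h4 := Polynomial.monic_normalize h1.ne_zero
      rwa [h3] at h4
    refine ⟨hrm.map _, (EE p (mapRingHom C) l (C X) : k[X][X]).map (algebraMap k[X] K), ?_⟩
    have h5 : (ff p q g l).map (algebraMap k[X] K) -
        ((EE p (mapRingHom C) l (C X) : k[X][X]).map (algebraMap k[X] K)) ^ q = ψ g := by
      unfold ff
      rw [Polynomial.map_add, Polynomial.map_pow, add_sub_cancel_right, Polynomial.map_map]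
      rfl
    rw [h5]
    exact map_dvd ψ (h1.prime.dvd_of_dvd_pow (h2.trans hA))
  · have h1 : (T.map ψ).prod = ψ T.prod := (map_multiset_prod ψ T).symm
    have h2 : ∀ y : k[X], aeval θ (ψ y) = algebraMap R (FractionRing R) (aeval x y) := by
      intro y
      have h3 : ψ y = (y.map C).map (algebraMap k[X] K) := by
        rw [Polynomial.map_map]; rfl
      rw [h3, hθev, eval₂_map]
      congr 1
      have : φ.comp C = algebraMap k R := by
        apply RingHom.ext
        intro c
        show aeval u (C c) = _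
        rw [aeval_C]
      rw [this]
      rfl
    have h3 : algebraMap k[X] (FractionRing R) (C (c * c1)) =
        algebraMap k (FractionRing R) (c * c1) := by
      rw [hkX, hkN]
      congr 1
      show aeval u (C (c * c1)) = _
      rw [aeval_C]
    rw [h1, h2, h3, e, hAT, map_mul (aeval x), aeval_C, map_mul (algebraMap R (FractionRing R)),
      map_mul (algebraMap k (FractionRing R)), hkN c1]
    ring

end fam

end Pool.Agent.Y160.FT
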