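import Mathlib
import Pool.Agent.Y160.SE.Par

/-!
# Towers of Kummer extensions: statements

The surfaces `w ^ q = g(x) + h(x, t) ^ q`, `h = b₁ + a₁ (b₂ + a₂ (… t ^ ℓ …) ^ ℓ) ^ ℓ`.
-/

set_option autoImplicit false
set_option linter.all false

open Polynomial IsDedekindDomain WithZero

namespace Pool.Agent.Y160.FT

open Pool.Agent.Y160.SE (IsPw SmoothC)

/-- `b₁ + a₁ (b₂ + a₂ (… T ^ ℓ …) ^ ℓ) ^ ℓ` in a ring `S`, where the polynomials `b` and the
constants `a` are taken to `S` by `φ`. -/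
noncomputable def EE {k S : Type} [CommRing k] [CommRing S] (ℓ : ℕ) (φ : k[X] →+* S) : List (k[X] × k) → S → S
  | [], T => T
  | (b, a) :: l, T => φ b + φ (C a) * (EE ℓ φ l T) ^ ℓ

/-- `g(x) + h(x, T) ^ q` as a polynomial in `T` (the outer variable) over `k[x]`. -/
noncomputable def FF {k : Type} [Field k] (ℓ q : ℕ) (g : k[X]) (l : List (k[X] × k)) : k[X][X] :=
  C g + (EE ℓ C l X) ^ q

/-- `g(x) + h(x, t) ^ q` as a polynomial in `x` (the outer variable) over `k[t]`. -/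
noncomputable def ff {k : Type} [Field k] (ℓ q : ℕ) (g : k[X]) (l : List (k[X] × k)) : k[X][X] :=
  g.map C + (EE ℓ (mapRingHom C) l (C X)) ^ q

/-- `A` divides a power of `g`. -/
def VV {k : Type} [Field k] (g A : k[X]) : Prop := ∃ N : ℕ, A ∣ g ^ N

/-- `A` is a constant times a power of `g` times an `ℓ`-th power. -/
def Triv {k : Type} [Field k] (ℓ : ℕ) (g A : k[X]) : Prop :=
  ∃ (c : k) (j : ℕ) (w : k[X]), c ≠ 0 ∧ A = C c * g ^ j * w ^ ℓ

/-- The conditions on `g` and the list of the pairs `(b, a)`. -/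
structure Cond {k : Type} [Field k] (ℓ q : ℕ) (g : k[X]) (l : List (k[X] × k)) : Prop where
  monic : g.Monic
  sep : g.Separable
  cop : ℓ.Coprime g.natDegree
  redei : ∀ (c : k) (A : k[X]), c ≠ 0 → VV g A → (∀ p : k[X], p.Monic → Irreducible p → p ∣ g →
    ∃ (e : ℕ) (w : k[X]), ¬ p ∣ w ∧ p ^ (e + 1) ∣ C c * A - g ^ e * w ^ ℓ) → Triv ℓ g A
  ne : ∀ l₁ b a l₂, l = l₁ ++ (b, a) :: l₂ → a ≠ 0
  deg : ∀ l₁ b a l₂, l = l₁ ++ (b, a) :: l₂ → q * ℓ ^ l₁.length * b.natDegree < g.natDegree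
  irr : ∀ l₁ b a l₂, l = l₁ ++ (b, a) :: l₂ → Irreducible (g + (EE ℓ (RingHom.id k[X]) l₁ b) ^ q)
  gsep : ∀ l₁ b a l₂, l = l₁ ++ (b, a) :: l₂ → (g + (EE ℓ (RingHom.id k[X]) l₁ b) ^ q).Separable
  step : ∀ l₁ b a l₂, l = l₁ ++ (b, a) :: l₂ → ∀ (c : k) (A w : k[X]), c ≠ 0 → VV g A →
    (g + (EE ℓ (RingHom.id k[X]) l₁ b) ^ q) ∣ C c * A - w ^ ℓ → Triv ℓ g A

/-- `R = k[x, u]`, where `F(x, u) = 0` is the only relation. -/
structure Pres {k R : Type} [Field k] [CommRing R] [Algebra k R] (x u : R) (F : k[X][X]) :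
    Prop where
  surj : ∀ z : R, ∃ p : k[X][X], eval₂ ((aeval x : k[X] →ₐ[k] R) : k[X] →+* R) u p = z
  ker : ∀ p : k[X][X], eval₂ ((aeval x : k[X] →ₐ[k] R) : k[X] →+* R) u p = 0 ↔ F ∣ p

/-- The Kummer extension of degree `r` of Dedekind domains, generated by `u`, `u ^ r = π`, where `π` is
squarefree. `σ` is the automorphism with `σ u = ζ u`. -/
structure Kx (r : ℕ) {k A R L : Type} [Field k] [CommRing A] [IsDedekindDomain A] [Algebra k A]
    [CommRing R] [IsDedekindDomain R] [Algebra A R] [Field L] [Algebra R L] [IsFractionRing R L]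
    [Algebra k L] (ζ : k) (π : A) (u : R) (σ : L ≃+* L) : Prop where
  pw : u ^ r = algebraMap A R π
  inj : Function.Injective (algebraMap A R)
  sk : ∀ c : k, algebraMap k L c = algebraMap R L (algebraMap A R (algebraMap k A c))
  su : σ (algebraMap R L u) = algebraMap k L ζ * algebraMap R L u
  sa : ∀ a : A, σ (algebraMap R L (algebraMap A R a)) = algebraMap R L (algebraMap A R a)
  sr : ∀ z : L, (σ ^ r) z = z
  perm : ∀ P : HeightOneSpectrum R, ∃ P' : HeightOneSpectrum R, ∀ z : L,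
    P.valuation L (σ z) = P'.valuation L z
  fix : ∀ z : L, σ z = z → ∃ a b : A, b ≠ 0 ∧
    z * algebraMap R L (algebraMap A R b) = algebraMap R L (algebraMap A R a)
  h90 : ∀ w : L, ∏ i ∈ Finset.range r, (σ ^ i) w = 1 → ∃ y : L, y ≠ 0 ∧ σ y = w * y
  unram : ∀ v : HeightOneSpectrum A, v.intValuation π = 1 → ∃ P : HeightOneSpectrum R, ∀ a : A,
    P.valuation L (algebraMap R L (algebraMap A R a)) = v.intValuation a
  ram : ∀ v : HeightOneSpectrum A, v.intValuation π ≠ 1 → ∃ P : HeightOneSpectrum R,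
    (∀ a : A, P.valuation L (algebraMap R L (algebraMap A R a)) = v.intValuation a ^ r) ∧
    P.valuation L (algebraMap R L u) = exp (-1 : ℤ) ∧
    (∀ z : L, P.valuation L (σ z) = P.valuation L z) ∧
    ∀ z : L, P.valuation L z ≤ 1 → ∃ a : A,
      P.valuation L (z - algebraMap R L (algebraMap A R a)) < 1

/-- The Kummer extension exists. -/
def StKum : Prop := ∀ (r : ℕ) (k A : Type) [Field k] [CommRing A] [IsDedekindDomain A] [Algebra k A]
  (ζ : k) (π : A), 1 < r → IsPrimitiveRoot ζ r →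
  (∀ v : HeightOneSpectrum A, v.intValuation π = 1 ∨ v.intValuation π = exp (-1 : ℤ)) →
  (∃ v : HeightOneSpectrum A, v.intValuation π = exp (-1 : ℤ)) →
  ∃ hD : IsDedekindDomain (AdjoinRoot (X ^ r - C π : A[X])),
    ∀ (L : Type) [Field L] [Algebra (AdjoinRoot (X ^ r - C π : A[X])) L]
      [IsFractionRing (AdjoinRoot (X ^ r - C π : A[X])) L] [Algebra k L],
      (∀ c : k, algebraMap k L c = algebraMap (AdjoinRoot (X ^ r - C π : A[X])) L
        (AdjoinRoot.of _ (algebraMap k A c))) →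
      ∃ σ : L ≃+* L, Kx (R := AdjoinRoot (X ^ r - C π : A[X])) r ζ π (AdjoinRoot.root _) σ

/-- The descent along a Kummer extension of degree `r = ℓ ^ (s + 1)`. -/
def StTS : Prop := ∀ (ℓ s r : ℕ) (k A R L : Type) [Field k] [CommRing A] [IsDedekindDomain A]
  [Algebra k A] [CommRing R] [IsDedekindDomain R] [Algebra A R] [Field L] [Algebra R L]
  [IsFractionRing R L] [Algebra k L] (ζ : k) (π : A) (u : R) (σ : L ≃+* L) (V : Set A),
  ℓ.Prime → r = ℓ ^ (s + 1) → IsPrimitiveRoot ζ r → Kx r ζ π u σ →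
  (∀ v : HeightOneSpectrum A, v.intValuation π = 1 ∨ v.intValuation π = exp (-1 : ℤ)) →
  (1 ∈ V ∧ 0 ∉ V ∧ ∀ a ∈ V, ∀ b ∈ V, a * b ∈ V) →
  -- the elements of the fraction field of `A` whose valuations prime to `π` are `ℓ`-th powers
  (∀ a b : A, a ≠ 0 → b ≠ 0 → (∀ v : HeightOneSpectrum A, v.intValuation π = 1 →
      IsPw ℓ (v.intValuation a / v.intValuation b)) →
    ∃ (c : k) (d w w' : A), c ≠ 0 ∧ d ∈ V ∧ w ≠ 0 ∧ w' ≠ 0 ∧
      a * w' ^ ℓ = algebraMap k A c * d * b * w ^ ℓ) →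
  -- the condition on the norm residue symbols
  (∀ (c : k) (d : A), c ≠ 0 → d ∈ V → (∀ v : HeightOneSpectrum A, v.intValuation π ≠ 1 →
      ∃ (e : ℕ) (w : A), v.intValuation w = 1 ∧
        v.intValuation (algebraMap k A c * d - ((-1) ^ (r - 1) * π) ^ e * w ^ ℓ) <
          exp (-(e : ℤ))) →
    ∃ (c' : k) (y : L), c' ≠ 0 ∧ y ≠ 0 ∧
      algebraMap R L (algebraMap A R d) = algebraMap k L c' * y ^ ℓ) →
  -- a place with a good residue field
  (∃ v : HeightOneSpectrum A, v.intValuation π ≠ 1 ∧ ∀ (c : k) (w : A),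
    v.intValuation (algebraMap k A c - w ^ ℓ) < 1 → ∃ s : k, s ^ ℓ = c) →
  ∀ z : L, z ≠ 0 → (∀ P : HeightOneSpectrum R, IsPw ℓ (P.valuation L z)) →
    ∃ (c : k) (d : A) (w : L), c ≠ 0 ∧ d ∈ V ∧ w ≠ 0 ∧
      z = algebraMap k L c * algebraMap R L (algebraMap A R d) * w ^ ℓ

/-- The residue ring at `u = b(x)`. -/
def StRes : Prop := ∀ (k R : Type) [Field k] [CommRing R] [Algebra k R] (x u : R) (F : k[X][X]),
  Pres x u F → ∀ b : k[X],
    (∀ p : k[X], (u - aeval x b) ∣ aeval x p ↔ F.eval b ∣ p) ∧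
    ∀ z : R, ∃ p : k[X], (u - aeval x b) ∣ z - aeval x p

/-- The presentation of the Kummer extension. -/
def StPres : Prop := ∀ (k R : Type) [Field k] [CommRing R] [Algebra k R] (x u π : R)
  (F : k[X][X]) (ℓ : ℕ) (a : k) (b : k[X]), 0 < ℓ → a ≠ 0 →
  u = aeval x b + algebraMap k R a * π → Pres x u F →
  Pres (algebraMap R (AdjoinRoot (X ^ ℓ - C π : R[X])) x) (AdjoinRoot.root (X ^ ℓ - C π : R[X]))
    (F.comp (C b + C (C a) * X ^ ℓ))

/-- The first Kummer extension. -/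
def StPres0 : Prop := ∀ (k : Type) [Field k] (g : k[X]) (q : ℕ), 0 < q →
  Pres (algebraMap k[X] (AdjoinRoot (X ^ q - C (-g) : k[X][X])) X)
    (AdjoinRoot.root (X ^ q - C (-g) : k[X][X])) (C g + X ^ q)

/-- The tower. -/
def StTower : Prop := ∀ (ℓ q s : ℕ) (k : Type) [Field k] (ζ : k) (g : k[X]) (l : List (k[X] × k)),
  ℓ.Prime → q = ℓ ^ (s + 1) → IsPrimitiveRoot ζ q → Cond ℓ q g l →
  ∃ (R : Type) (_ : CommRing R) (_ : IsDedekindDomain R) (_ : Algebra k R) (x u : R),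
    Pres x u (FF ℓ q g l) ∧
    ∀ (L : Type) [Field L] [Algebra R L] [IsFractionRing R L] [Algebra k L],
      (∀ c : k, algebraMap k L c = algebraMap R L (algebraMap k R c)) →
      ∀ z : L, z ≠ 0 → (∀ P : HeightOneSpectrum R, IsPw ℓ (P.valuation L z)) →
        ∃ (c : k) (A : k[X]) (w : L), c ≠ 0 ∧ VV g A ∧ w ≠ 0 ∧
          z = algebraMap k L c * algebraMap R L (aeval x A) * w ^ ℓ

/-- Irreducibility by the Newton polygon at infinity. -/
def StIrr : Prop := ∀ (k F : Type) [Field k] [Field F] [Algebra k[X] F] [IsFractionRing k[X] F]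
  (f : k[X][X]) (M : ℕ), f.Monic → f.natDegree.Coprime M → 0 < M → (f.coeff 0).natDegree = M →
  (∀ j ≤ f.natDegree, f.natDegree * (f.coeff j).natDegree ≤ M * (f.natDegree - j)) →
  Irreducible (f.map (algebraMap k[X] F))

/-- The elementary properties of `f = g(x) + h(x, t) ^ q`. -/
def StFam : Prop := ∀ (ℓ q s : ℕ) (k : Type) [Field k] (g : k[X]) (l : List (k[X] × k)),
  ℓ.Prime → q = ℓ ^ (s + 1) → (ℓ : k) ≠ 0 → Cond ℓ q g l →
  (ff ℓ q g l).Monic ∧ (ff ℓ q g l).natDegree = g.natDegree ∧ SmoothC (ff ℓ q g l) ∧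
  (∀ (F : Type) [Field F] [Algebra k[X] F] [IsFractionRing k[X] F],
    Irreducible ((ff ℓ q g l).map (algebraMap k[X] F)) ∧
    ((ff ℓ q g l).map (algebraMap k[X] F)).Separable) ∧
  ∀ (k' F : Type) [Field k'] [Algebra k k'] [Field F] [Algebra k'[X] F] [IsFractionRing k'[X] F],
    Irreducible (((ff ℓ q g l).map (mapRingHom (algebraMap k k'))).map (algebraMap k'[X] F))

end Pool.Agent.Y160.FT
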